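import Pool.Agent.H.MP_7f9305_lc.B

set_option autoImplicit false

namespace Pool.Agent.Results.MP_ab0e6d_lc.Proper

open Pool.Agent.H.MP_7f9305_lc Relation

/-- Rules of the example; nonterminals 0..5 are S, E, U, A, D, R. -/
def rules : Finset ((Bool ⊕ Fin 6) × List (Bool ⊕ Fin 6) × Finset (Fin 6)) :=
  {(.inr 0, [.inr 0, .inr 2, .inr 3], ∅), (.inr 0, [.inr 0], ∅), (.inr 0, [.inr 1], ∅),
    (.inr 1, [], ∅), (.inr 2, [.inr 2, .inl false], {0}), (.inr 2, [.inr 3, .inl false], {0}),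
    (.inr 3, [.inr 4, .inl false], {0}), (.inr 4, [.inr 4, .inl false], {0}),
    (.inr 5, [.inr 5], {3}), (.inr 2, [.inl true], {1}), (.inr 3, [.inl true], {1}),
    (.inr 4, [.inl true], {1}), (.inr 5, [.inl false], {1}), (.inl false, [.inl false], ∅)}

/-- The rule test. -/
def ok (pre : List (Bool ⊕ Fin 6)) (X : Bool ⊕ Fin 6) (y : List (Bool ⊕ Fin 6)) : Prop :=
  ∃ U, (X, y, U) ∈ rules ∧ ∀ Z ∈ U, Sum.inr Z ∈ pre

theorem ok_iff (pre X y) : ok pre X y ↔
    (X = .inr 0 ∧ y = [.inr 0, .inr 2, .inr 3]) ∨ (X = .inr 0 ∧ y = [.inr 0]) ∨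
    (X = .inr 0 ∧ y = [.inr 1]) ∨ (X = .inr 1 ∧ y = []) ∨
    (X = .inr 2 ∧ y = [.inr 2, .inl false] ∧ .inr 0 ∈ pre) ∨
    (X = .inr 2 ∧ y = [.inr 3, .inl false] ∧ .inr 0 ∈ pre) ∨
    (X = .inr 3 ∧ y = [.inr 4, .inl false] ∧ .inr 0 ∈ pre) ∨
    (X = .inr 4 ∧ y = [.inr 4, .inl false] ∧ .inr 0 ∈ pre) ∨
    (X = .inr 5 ∧ y = [.inr 5] ∧ .inr 3 ∈ pre) ∨ (X = .inr 2 ∧ y = [.inl true] ∧ .inr 1 ∈ pre) ∨
    (X = .inr 3 ∧ y = [.inl true] ∧ .inr 1 ∈ pre) ∨ (X = .inr 4 ∧ y = [.inl true] ∧ .inr 1 ∈ pre) ∨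
    (X = .inr 5 ∧ y = [.inl false] ∧ .inr 1 ∈ pre) ∨ (X = .inl false ∧ y = [.inl false]) := by
  simp [ok, rules, or_and_right, exists_or, and_assoc]

/-- Symbols of the body. -/
def bd (X : Bool ⊕ Fin 6) : Prop := X = .inl false ∨ X = .inr 2 ∨ X = .inr 3 ∨ X = .inr 4

/-- Number of blocks. -/
def nb (u : List (Bool ⊕ Fin 6)) : ℕ := u.count (.inr 2) + u.count (.inr 3) + u.count (.inr 4)

theorem stepS {pre u v : List (Bool ⊕ Fin 6)} (h : Par ok pre u v) (h1 : .inr 1 ∉ pre)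
    (hu : ∀ X ∈ u, bd X) : (∀ X ∈ v, bd X) ∧ nb v = nb u ∧
      v.count (.inl false) = u.count (.inl false) + nb u ∧
      v.count (.inr 4) = u.count (.inr 4) + u.count (.inr 3) := by
  induction h with
  | nil => simp [nb]
  | @cons pre X y u v h2 _ ih =>
    have h3 := hu X (by simp)
    obtain ⟨a1, a2, a3, a4⟩ := ih (by rcases h3 with rfl | rfl | rfl | rfl <;> simpa using h1)
      (fun Y hY => hu Y (by simp [hY]))
    rw [ok_iff] at h2
    unfold nb at *
    rcases h3 with rfl | rfl | rfl | rfl <;> simp [h1] at h2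
    · subst h2; exact ⟨by simpa [bd] using a1, by simpa using a2, by simp; omega, by simpa using a4⟩
    · rcases h2 with ⟨rfl, -⟩ | ⟨rfl, -⟩ <;>
        exact ⟨by simpa [bd] using a1, by simp; omega, by simp; omega, by simp; omega⟩
    · obtain ⟨rfl, -⟩ := h2
      exact ⟨by simpa [bd] using a1, by simp; omega, by simp; omega, by simp; omega⟩
    · obtain ⟨rfl, -⟩ := h2
      exact ⟨by simpa [bd] using a1, by simp; omega, by simp; omega, by simp; omega⟩

theorem stepE {pre u v : List (Bool ⊕ Fin 6)} (h : Par ok pre u v) (h1 : .inr 0 ∉ pre)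
    (hu : ∀ X ∈ u, bd X) : v.count (.inl true) = nb u ∧
      v.length = nb u + u.count (.inl false) := by
  induction h with
  | nil => simp [nb]
  | @cons pre X y u v h2 _ ih =>
    have h3 := hu X (by simp)
    obtain ⟨a1, a2⟩ := ih (by rcases h3 with rfl | rfl | rfl | rfl <;> simpa using h1)
      (fun Y hY => hu Y (by simp [hY]))
    rw [ok_iff] at h2
    unfold nb at *
    rcases h3 with rfl | rfl | rfl | rfl <;> simp [h1] at h2
    · subst h2; exact ⟨by simpa using a1, by simp; omega⟩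
    all_goals
      obtain ⟨rfl, -⟩ := h2
      exact ⟨by simp; omega, by simp; omega⟩

theorem stuck {pre u v : List (Bool ⊕ Fin 6)} (h : Par ok pre u v) : .inl true ∉ u := by
  induction h with
  | nil => simp
  | cons h2 _ ih =>
    intro h3
    rcases List.mem_cons.1 h3 with rfl | h3
    · simp [ok_iff] at h2
    · exact ih h3

/-- The invariant of the example. -/
def Inv (x : List (Bool ⊕ Fin 6)) : Prop :=
  (∃ c u, x = c :: (u ++ [.inr 5]) ∧ (c = .inr 0 ∨ c = .inr 1) ∧ (∀ X ∈ u, bd X) ∧ 0 < nb u ∧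
    u.count (.inl false) ≤ nb u * u.count (.inr 4)) ∨
  (.inl true ∈ x ∧ x.length ≤ x.count (.inl true) * x.count (.inl true) + x.count (.inl true) + 1)

theorem inv_step {x z : List (Bool ⊕ Fin 6)} (h : Par ok [] x z) (hx : Inv x) : Inv z := by
  rcases hx with ⟨c, u, rfl, h1, h2, h3, h4⟩ | ⟨h1, -⟩
  swap
  · exact absurd h1 (stuck h)
  cases h with
  | @cons _ _ y _ z h5 h6 =>
    obtain ⟨v, r, rfl, h7, h8⟩ := h6.split
    have n0 : .inr 0 ∉ u := fun h => by simpa [bd] using h2 _ h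
    have n1 : .inr 1 ∉ u := fun h => by simpa [bd] using h2 _ h
    cases h8 with
    | cons h8 h9 =>
      cases h9
      rw [ok_iff] at h5 h8
      rcases h1 with rfl | rfl
      · obtain ⟨a1, a2, a3, a4⟩ := stepS h7 (by simp) h2
        simp [n1] at h5 h8
        obtain ⟨rfl, h8⟩ := h8
        have h9 := List.count_pos_iff.2 h8
        have a5 : v.count (.inl false) ≤ nb v * v.count (.inr 4) := by
          rw [a2, a3, a4]; nlinarith
        rcases h5 with rfl | rfl | rfl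
        · refine Or.inl ⟨_, .inr 2 :: .inr 3 :: v, rfl, Or.inl rfl, by simpa [bd] using a1,
            by simp [nb], ?_⟩
          simp only [nb] at a5
          simp [nb]
          nlinarith
        · exact Or.inl ⟨_, v, rfl, Or.inl rfl, a1, a2 ▸ h3, a5⟩
        · exact Or.inl ⟨_, v, rfl, Or.inr rfl, a1, a2 ▸ h3, a5⟩
      · obtain ⟨a1, a2⟩ := stepE h7 (by simp) h2
        simp at h5 h8
        subst h5
        have a3 : u.count (.inr 4) ≤ nb u := Nat.le_add_left _ _
        have a4 : .inl true ∈ v := List.count_pos_iff.1 (by omega)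
        rcases h8 with ⟨rfl, -⟩ | rfl <;>
          exact Or.inr ⟨by simp [a4], by simp [a1, a2]; nlinarith⟩

/-- Idle growth of one symbol. -/
def g1 (X : Bool ⊕ Fin 6) : List (Bool ⊕ Fin 6) :=
  if X = .inl false then [X] else if X = .inr 2 then [X, .inl false] else [.inr 4, .inl false]

theorem grow (u : List (Bool ⊕ Fin 6)) (hu : ∀ X ∈ u, bd X) :
    (∀ pre, .inr 0 ∈ pre → Par ok pre u (u.flatMap g1)) ∧ GR u (u.flatMap g1) ∧
      (u.flatMap g1).count (.inr 2) = u.count (.inr 2) := by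
  induction u with
  | nil => exact ⟨fun _ _ => Par.nil _, GR.nil, rfl⟩
  | cons X u ih =>
    obtain ⟨a1, a2, a3⟩ := ih (fun Y hY => hu Y (by simp [hY]))
    refine ⟨fun pre h => Par.cons ?_ (a1 _ (by simp [h])), ?_, ?_⟩
    · rcases hu X (by simp) with rfl | rfl | rfl | rfl <;> simp [ok_iff, g1, h]
    · rcases hu X (by simp) with rfl | rfl | rfl | rfl
      exacts [GR.b a2, GR.blk _ _ (by simp) a2, GR.blk _ _ (by simp) a2, GR.blk _ _ (by simp) a2]
    · rcases hu X (by simp) with rfl | rfl | rfl | rfl <;> simp [g1, a3]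

theorem GR.append {u v u' v' : List (Bool ⊕ Fin 6)} (h : GR u v) (h' : GR u' v') :
    GR (u ++ u') (v ++ v') := by
  induction h with
  | nil => exact h'
  | b _ ih => exact GR.b ih
  | blk X X' hX _ ih => exact GR.blk X X' hX ih

/-- One step of the example. -/
def St (u v : List (Bool ⊕ Fin 6)) : Prop := u ≠ [] ∧ Par ok [] u v

theorem top {u v y : List (Bool ⊕ Fin 6)} (h : Par ok [.inr 0] u v) (h1 : .inr 3 ∈ u)
    (h2 : ok [] (.inr 0) y) : St (.inr 0 :: (u ++ [.inr 5])) (y ++ (v ++ [.inr 5])) :=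
  ⟨by simp, Par.cons h2 (h.append (Par.cons (y := [_]) (by simp [ok_iff, h1]) (Par.nil _)))⟩

theorem phase1 (n : ℕ) : ∃ u, ReflTransGen St [.inr 0, .inr 3, .inr 5] (.inr 0 :: (u ++ [.inr 5])) ∧
    (∀ X ∈ u, bd X) ∧ .inr 3 ∈ u ∧ u.count (.inr 2) = n := by
  induction n with
  | zero => exact ⟨[.inr 3], ReflTransGen.refl, by simp [bd], by simp, by simp⟩
  | succ n ih =>
    obtain ⟨u, h1, h2, h3, h4⟩ := ih
    obtain ⟨a1, -, a3⟩ := grow u h2
    have a4 := a1 [.inr 0] (by simp)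
    exact ⟨.inr 2 :: .inr 3 :: u.flatMap g1, h1.tail (top (y := [_, _, _]) a4 h3 (by simp [ok_iff])),
      by simpa [bd] using (stepS a4 (by simp) h2).1, by simp, by simp [a3, h4]⟩

theorem phase2 (n : ℕ) : ∀ u k, (∀ X ∈ u, bd X) → .inr 3 ∈ u → u.count (.inr 2) = n → GB k u →
    ∃ v, ReflTransGen St (.inr 0 :: (u ++ [.inr 5])) (.inr 1 :: (v ++ [.inr 5])) ∧
      (∀ X ∈ v, bd X) ∧ nb v = nb u ∧ GB (k + n) v := by
  induction n with
  | zero =>
    intro u k h1 h2 _ h4
    obtain ⟨a1, a2, -⟩ := grow u h1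
    have a4 := a1 [.inr 0] (by simp)
    exact ⟨_, ReflTransGen.single (top (y := [_]) a4 h2 (by simp [ok_iff])),
      (stepS a4 (by simp) h1).1, (stepS a4 (by simp) h1).2.1, (a2.gb h4).mono (by omega)⟩
  | succ n ih =>
    intro u k h1 h2 h3 h4
    obtain ⟨p, q, rfl⟩ := List.append_of_mem
      (List.count_pos_iff.1 (show 0 < u.count (.inr 2) by omega))
    obtain ⟨a1, a2, a3⟩ := grow p (fun X hX => h1 X (by simp [hX]))
    obtain ⟨b1, b2, b3⟩ := grow q (fun X hX => h1 X (by simp [hX]))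
    have a4 : Par ok [.inr 0] (p ++ .inr 2 :: q)
        (p.flatMap g1 ++ ([.inr 3, .inl false] ++ q.flatMap g1)) :=
      (a1 _ (by simp)).append (Par.cons (by simp [ok_iff]) (b1 _ (by simp)))
    obtain ⟨v, c1, c2, c3, c4⟩ := ih _ (k + 1) (stepS a4 (by simp) h1).1 (by simp)
      (by simp [a3, b3] at h3 ⊢; omega) ((GR.append a2 (GR.blk _ _ (by simp) b2)).gb h4)
    exact ⟨v, ReflTransGen.head (top (y := [_]) a4 h2 (by simp [ok_iff])) c1, c2,
      c3.trans (stepS a4 (by simp) h1).2.1, c4.mono (by omega)⟩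

theorem last (u : List (Bool ⊕ Fin 6)) (hu : ∀ X ∈ u, bd X) : ∃ z : List Bool,
    (∀ pre, .inr 1 ∈ pre → Par ok pre (u ++ [.inr 5]) (z.map .inl)) ∧ nb u ≤ z.count true ∧
      (∀ k, List.replicate k (.inl false) <+: u →
        List.replicate k (.inl false : Bool ⊕ Fin 6) <+: z.map .inl) ∧
      ∀ k, GB k u → GB k (z.map (.inl : Bool → Bool ⊕ Fin 6)) := by
  induction u with
  | nil =>
    refine ⟨[false], fun pre h => Par.cons (y := [_]) (by simp [ok_iff, h]) (Par.nil _),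
      by simp [nb], fun k h => ?_, fun k _ => ⟨by simp, trivial⟩⟩
    rw [List.prefix_nil.1 h]; simp
  | cons X u ih =>
    obtain ⟨z, a1, a2, a3, a4⟩ := ih (fun Y hY => hu Y (by simp [hY]))
    by_cases hX : X = .inl false
    · subst hX
      refine ⟨false :: z, fun pre h => Par.cons (y := [_]) (by simp [ok_iff]) (a1 _ (by simp [h])),
        by simpa [nb] using a2, fun k h => ?_, fun k h => ⟨by simp, a4 k h.2⟩⟩
      cases k with
      | zero => simp
      | succ k => exact List.cons_prefix_cons.2 ⟨rfl, a3 k (List.cons_prefix_cons.1 h).2⟩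
    · refine ⟨true :: z, fun pre h => Par.cons (y := [_]) ?_ (a1 _ (by simp [h])), ?_,
        fun k h => ?_, fun k h => ⟨fun _ => a3 k (h.1 hX), a4 k h.2⟩⟩
      · rcases hu X (by simp) with rfl | rfl | rfl | rfl <;> simp [ok_iff, h] at hX ⊢
      · rcases hu X (by simp) with rfl | rfl | rfl | rfl <;> simp [nb] at hX a2 ⊢ <;> omega
      · cases k with
        | zero => simp
        | succ k => exact absurd (List.cons_prefix_cons.1 h).1.symm hX

theorem result : (∀ (T : Type) [Finite T] (L : Set (List T)), IsET0L L → IsLP L) ∧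
    ∃ L : Set (List Bool), IsLP L ∧ ¬ IsET0L L := by
  refine ⟨fun T _ L => et_lp, _, ⟨Fin 6, inferInstance, rules, [.inr 0, .inr 3, .inr 5], by simp,
    rfl⟩, fun h => ?_⟩
  obtain ⟨B, hB⟩ := exchange h
  obtain ⟨u, h1, h2, h3, h4⟩ := phase1 (B + 1)
  obtain ⟨v, a1, a2, a3, a4⟩ := phase2 _ u 0 h2 h3 h4 (GB.zero _)
  obtain ⟨z, b1, b2, -, b4⟩ := last v a2
  have c1 : B + 1 ≤ nb u := by unfold nb; omega
  obtain ⟨y, d1, d2, d3⟩ := (hB z ((h1.trans a1).tail ⟨by simp, Par.cons (y := [])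
    (by simp [ok_iff]) (b1 _ (by simp))⟩) (by omega)).2 ((b4 _ a4).mono (by omega)).gap
      (z.count true * z.count true + z.count true + 2)
  have key : ∀ v, ReflTransGen St [.inr 0, .inr 3, .inr 5] v → Inv v := by
    intro v hv
    induction hv with
    | refl => exact Or.inl ⟨_, [.inr 3], rfl, Or.inl rfl, by simp [bd], by simp [nb], by simp⟩
    | tail _ h ih => exact inv_step h.2 ih
  rcases key _ d1 with ⟨c, x', e1, rfl | rfl, -⟩ | ⟨-, e1⟩
  · cases y <;> simp at e1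
  · cases y <;> simp at e1
  · rw [List.count_map_of_injective _ _ Sum.inl_injective, List.length_map, d2] at e1
    omega

end Pool.Agent.Results.MP_ab0e6d_lc.Proper
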